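import Pool.Agent.MT100G.Stmts

/-! TU1: the tuples of monodromy matrices form a group. -/

set_option autoImplicit false

namespace Pool.Agent.MT100G.H63

open Matrix Polynomial Pool.Agent.MT100 Pool.Agent.MT100G Pool.Agent.Helper78_MT

variable {d : Type} [Fintype d] [DecidableEq d]

/-- right multiplication by an invertible constant matrix -/
theorem solOn_mul {q : ℤ[X]} {B : Matrix d d ℤ[X]} {c : ℂ} {ρ : ℝ} {Y : ℂ → Matrix d d ℂ}
    (h : SolOn q B c ρ Y) (g : Matrix d d ℂ) (hg : IsUnit g.det) :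
    SolOn q B c ρ (fun w => Y w * g) where
  pos := h.pos
  reg := h.reg
  det w hw := by
    rw [Matrix.det_mul]
    exact (h.det w hw).mul hg
  ode w hw i j := by
    have h1 : HasDerivAt (fun x => ∑ k, Y x i k * g k j)
        (∑ k, -((w * zC q w⁻¹)⁻¹ * (B.map (fun p => zC p w⁻¹) * Y w) i k) * g k j) w :=
      HasDerivAt.fun_sum fun k _ => (h.ode w hw i k).mul_const (g k j)
    have h2 : (∑ k, -((w * zC q w⁻¹)⁻¹ * (B.map (fun p => zC p w⁻¹) * Y w) i k) * g k j) =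
        -((w * zC q w⁻¹)⁻¹ * (B.map (fun p => zC p w⁻¹) * (Y w * g)) i j) := by
      rw [← Matrix.mul_assoc, Matrix.mul_apply (M := B.map (fun p => zC p w⁻¹) * Y w),
        Finset.mul_sum, ← Finset.sum_neg_distrib]
      apply Finset.sum_congr rfl
      intro k _
      ring
    rw [h2] at h1
    exact h1

/-- the points of the space of tuples of germs -/
abbrev Pt (ι d : Type) : Type := ℂ × ℝ × (ι → ℂ → Matrix d d ℂ) × (ℂ → ℂ)

/-- right multiplication of a tuple -/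
noncomputable def act {ι : Type} (g : ι → Matrix d d ℂ) (k : ℤ) (x : Pt ι d) : Pt ι d :=
  (x.1, x.2.1, (fun i w => x.2.2.1 i w * g i), fun w => x.2.2.2 w + 2 * Real.pi * Complex.I * k)

theorem solT_act {ι : Type} {q : ℤ[X]} {B : Matrix d d ℤ[X]} {κ : ι → ℕ} {x : Pt ι d}
    (h : SolT q B κ x) (g : ι → Matrix d d ℂ) (hg : ∀ i, IsUnit (g i).det) (k : ℤ) :
    SolT q B κ (act g k x) := by
  obtain ⟨h1, h2, h3, h4⟩ := h
  refine ⟨h1, fun i => solOn_mul (h2 i) (g i) (hg i), fun w hw => ⟨(h3 w hw).1, ?_⟩, ?_⟩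
  · show Complex.exp (x.2.2.2 w + 2 * Real.pi * Complex.I * k) = w
    rw [Complex.exp_add, (h3 w hw).2]
    have : Complex.exp (2 * Real.pi * Complex.I * k) = 1 := by
      rw [Complex.exp_eq_one_iff]
      exact ⟨k, by ring⟩
    rw [this, mul_one]
  · exact h4.add_const _

theorem stpT_act {ι : Type} {q : ℤ[X]} {B : Matrix d d ℤ[X]} {κ : ι → ℕ} {x y : Pt ι d}
    (h : StpT q B κ x y) (g : ι → Matrix d d ℂ) (hg : ∀ i, IsUnit (g i).det) (k : ℤ) :
    StpT q B κ (act g k x) (act g k y) := by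
  obtain ⟨h1, h2, h3, h4⟩ := h
  refine ⟨solT_act h1 g hg k, solT_act h2 g hg k, h3, fun w hw => ?_⟩
  obtain ⟨h5, h6⟩ := h4 w hw
  refine ⟨fun i => ?_, ?_⟩
  · show x.2.2.1 i (w - κ i) * g i = y.2.2.1 i (w - κ i) * g i
    rw [h5 i]
  · show x.2.2.2 w + _ = y.2.2.2 w + _
    rw [h6]

theorem cntT_act {ι : Type} {q : ℤ[X]} {B : Matrix d d ℤ[X]} {κ : ι → ℕ} {x y : Pt ι d}
    (h : CntT q B κ x y) (g : ι → Matrix d d ℂ) (hg : ∀ i, IsUnit (g i).det) (k : ℤ) :
    CntT q B κ (act g k x) (act g k y) := by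
  induction h with
  | refl => exact Relation.ReflTransGen.refl
  | tail _ hbc ih => exact ih.tail (stpT_act hbc g hg k)

theorem stpT_symm {ι : Type} {q : ℤ[X]} {B : Matrix d d ℤ[X]} {κ : ι → ℕ} {x y : Pt ι d}
    (h : StpT q B κ x y) : StpT q B κ y x := by
  obtain ⟨h1, h2, h3, h4⟩ := h
  refine ⟨h2, h1, by rwa [Set.inter_comm], fun w hw => ?_⟩
  obtain ⟨h5, h6⟩ := h4 w ⟨hw.2, hw.1⟩
  exact ⟨fun i => (h5 i).symm, h6.symm⟩

theorem cntT_symm {ι : Type} {q : ℤ[X]} {B : Matrix d d ℤ[X]} {κ : ι → ℕ} {x y : Pt ι d}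
    (h : CntT q B κ x y) : CntT q B κ y x := by
  induction h with
  | refl => exact Relation.ReflTransGen.refl
  | tail _ hbc ih => exact Relation.ReflTransGen.head (stpT_symm hbc) ih

/-- one component of a step -/
theorem stpT_comp {ι : Type} {q : ℤ[X]} {B : Matrix d d ℤ[X]} {κ : ι → ℕ} {x y : Pt ι d}
    (h : StpT q B κ x y) (i : ι) :
    Stp q B Set.univ (x.1 - κ i, x.2.1, x.2.2.1 i) (y.1 - κ i, y.2.1, y.2.2.1 i) := by
  obtain ⟨h1, h2, ⟨u, hu⟩, h4⟩ := h
  refine ⟨h1.2.1 i, h2.2.1 i, Set.subset_univ _, Set.subset_univ _, ⟨u - κ i, ?_⟩, ?_⟩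
  · have hd : ∀ v : ℂ, dist (u - κ i) (v - κ i) = dist u v := fun v => by
      simp [dist_eq_norm]
    refine ⟨?_, ?_⟩
    · show dist _ _ < _
      rw [hd]
      exact hu.1
    · show dist _ _ < _
      rw [hd]
      exact hu.2
  · intro w hw
    have hd : ∀ v : ℂ, dist (w + κ i) v = dist w (v - κ i) := fun v => by
      rw [dist_eq_norm, dist_eq_norm]
      congr 1
      ring
    have hw' : w + κ i ∈ Metric.ball x.1 x.2.1 ∩ Metric.ball y.1 y.2.1 := by
      refine ⟨?_, ?_⟩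
      · show dist _ _ < _
        rw [hd]
        exact hw.1
      · show dist _ _ < _
        rw [hd]
        exact hw.2
    have h5 := (h4 _ hw').1 i
    rw [add_sub_cancel_right] at h5
    exact h5

theorem cntT_comp {ι : Type} {q : ℤ[X]} {B : Matrix d d ℤ[X]} {κ : ι → ℕ} {x y : Pt ι d}
    (h : CntT q B κ x y) (i : ι) :
    Cnt q B Set.univ (x.1 - κ i, x.2.1, x.2.2.1 i) (y.1 - κ i, y.2.1, y.2.2.1 i) := by
  induction h with
  | refl => exact Relation.ReflTransGen.refl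
  | tail _ hbc ih => exact ih.tail (stpT_comp hbc i)

theorem tup_mon {ι : Type} (H : Matrix d d (PowerSeries ℚ)) (N : Matrix d d ℤ) (q : ℤ[X])
    (B : Matrix d d ℤ[X]) (κ : ι → ℕ) (t : (ι → Matrix d d ℂ) × ℤ) (ht : t ∈ tup H N q B κ)
    (i : ι) : t.1 i ∈ mon H N q B Set.univ := by
  have h1 : ∀ᶠ c : ℝ in Filter.atTop, CntT q B κ ((c : ℂ), 1, (fun _ => YH H N), Complex.log)
    ((c : ℂ), 1, (fun i w => YH H N w * t.1 i),
      fun w => Complex.log w + 2 * Real.pi * Complex.I * t.2) := ht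
  have h2 := (Filter.tendsto_atTop_add_const_right Filter.atTop (κ i : ℝ)
    Filter.tendsto_id).eventually h1
  show ∀ᶠ c : ℝ in Filter.atTop, Cnt q B Set.univ ((c : ℂ), 1, YH H N)
    ((c : ℂ), 1, fun w => YH H N w * t.1 i)
  filter_upwards [h2] with c hc
  have h3 := cntT_comp hc i
  have h4 : (((id c + (κ i : ℝ) : ℝ) : ℂ) - κ i) = (c : ℂ) := by
    simp
  simp only at h3
  rw [h4] at h3
  exact h3

/-- matrices which preserve the pairing are invertible -/
theorem aut_det (J0 : Matrix d d ℚ) (hJ : IsUnit J0.det) (g : Matrix d d ℂ) (hg : g ∈ Aut J0) :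
    IsUnit g.det := by
  have h1 : gᵀ * J0.map (algebraMap ℚ ℂ) * g = J0.map (algebraMap ℚ ℂ) := hg
  have h2 : (J0.map (algebraMap ℚ ℂ)).det ≠ 0 := by
    have : (J0.map (algebraMap ℚ ℂ)).det = algebraMap ℚ ℂ J0.det := by
      rw [RingHom.map_det]
      rfl
    rw [this]
    exact (_root_.map_ne_zero _).mpr hJ.ne_zero
  rw [isUnit_iff_ne_zero]
  intro h0
  have h3 := congrArg Matrix.det h1
  rw [Matrix.det_mul, h0, mul_zero] at h3
  exact h2 h3.symm

theorem tu1 (hM : MonStmt) : Tu1Stmt := by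
  intro d _ _ F ι _ κ
  have hmon : ∀ t ∈ tup F.H F.N F.q F.B κ, ∀ i, t.1 i ∈ mon F.H F.N F.q F.B Set.univ :=
    fun t ht i => tup_mon F.H F.N F.q F.B κ t ht i
  have hdet : ∀ t ∈ tup F.H F.N F.q F.B κ, ∀ i, IsUnit (t.1 i).det := fun t ht i =>
    aut_det F.J0 F.unit _ ((hM d F).1 (hmon t ht i))
  refine ⟨hmon, ?_, ?_, ?_⟩
  · refine Filter.Eventually.of_forall fun c => ?_
    have h1 : (((c : ℂ), (1 : ℝ), (fun (_ : ι) => YH F.H F.N), Complex.log) : Pt ι d) =
        ((c : ℂ), (1 : ℝ), (fun (_ : ι) w => YH F.H F.N w * (1 : Matrix d d ℂ)),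
          fun w => Complex.log w + 2 * Real.pi * Complex.I * ((0 : ℤ) : ℂ)) := by
      simp
    show CntT F.q F.B κ (((c : ℂ), (1 : ℝ), (fun (_ : ι) => YH F.H F.N), Complex.log) : Pt ι d)
      ((c : ℂ), (1 : ℝ), (fun (_ : ι) w => YH F.H F.N w * (1 : Matrix d d ℂ)),
          fun w => Complex.log w + 2 * Real.pi * Complex.I * ((0 : ℤ) : ℂ))
    rw [← h1]
    exact Relation.ReflTransGen.refl
  · intro t ht t' ht'
    have h1 : ∀ᶠ c : ℝ in Filter.atTop, CntT F.q F.B κ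
        ((c : ℂ), 1, (fun _ => YH F.H F.N), Complex.log)
        ((c : ℂ), 1, (fun i w => YH F.H F.N w * t.1 i),
          fun w => Complex.log w + 2 * Real.pi * Complex.I * t.2) := ht
    have h2 : ∀ᶠ c : ℝ in Filter.atTop, CntT F.q F.B κ
        ((c : ℂ), 1, (fun _ => YH F.H F.N), Complex.log)
        ((c : ℂ), 1, (fun i w => YH F.H F.N w * t'.1 i),
          fun w => Complex.log w + 2 * Real.pi * Complex.I * t'.2) := ht'
    show ∀ᶠ c : ℝ in Filter.atTop, CntT F.q F.B κ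
        ((c : ℂ), 1, (fun _ => YH F.H F.N), Complex.log)
        ((c : ℂ), 1, (fun i w => YH F.H F.N w * (t.1 i * t'.1 i)),
          fun w => Complex.log w + 2 * Real.pi * Complex.I * ((t.2 + t'.2 : ℤ) : ℂ))
    filter_upwards [h1, h2] with c hc hc'
    have h3 := cntT_act hc t'.1 (hdet t' ht') t'.2
    have h4 := hc'.trans h3
    have h5 : act t'.1 t'.2 (((c : ℂ), 1, (fun i w => YH F.H F.N w * t.1 i),
          fun w => Complex.log w + 2 * Real.pi * Complex.I * t.2) : Pt ι d) =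
        ((c : ℂ), 1, (fun i w => YH F.H F.N w * (t.1 i * t'.1 i)),
          fun w => Complex.log w + 2 * Real.pi * Complex.I * ((t.2 + t'.2 : ℤ) : ℂ)) := by
      unfold act
      simp only [Matrix.mul_assoc, Int.cast_add, mul_add, add_assoc]
    rw [h5] at h4
    exact h4
  · intro t ht
    have h1 : ∀ᶠ c : ℝ in Filter.atTop, CntT F.q F.B κ
        ((c : ℂ), 1, (fun _ => YH F.H F.N), Complex.log)
        ((c : ℂ), 1, (fun i w => YH F.H F.N w * t.1 i),
          fun w => Complex.log w + 2 * Real.pi * Complex.I * t.2) := ht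
    show ∀ᶠ c : ℝ in Filter.atTop, CntT F.q F.B κ
        ((c : ℂ), 1, (fun _ => YH F.H F.N), Complex.log)
        ((c : ℂ), 1, (fun i w => YH F.H F.N w * (t.1 i)⁻¹),
          fun w => Complex.log w + 2 * Real.pi * Complex.I * ((-t.2 : ℤ) : ℂ))
    filter_upwards [h1] with c hc
    have hi : ∀ i, IsUnit ((t.1 i)⁻¹).det := fun i => by
      rw [Matrix.det_nonsing_inv]
      exact (hdet t ht i).ringInverse
    have h3 := cntT_act (cntT_symm hc) (fun i => (t.1 i)⁻¹) hi (-t.2)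
    have h5 : act (fun i => (t.1 i)⁻¹) (-t.2)
        (((c : ℂ), 1, (fun i w => YH F.H F.N w * t.1 i),
          fun w => Complex.log w + 2 * Real.pi * Complex.I * t.2) : Pt ι d) =
        ((c : ℂ), 1, (fun _ => YH F.H F.N), Complex.log) := by
      unfold act
      have h6 : ∀ i, t.1 i * (t.1 i)⁻¹ = 1 := fun i => Matrix.mul_nonsing_inv _ (hdet t ht i)
      simp only [Matrix.mul_assoc, h6, Matrix.mul_one, Int.cast_neg, mul_neg,
        add_neg_cancel_right]
    have h7 : act (fun i => (t.1 i)⁻¹) (-t.2)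
        (((c : ℂ), 1, (fun _ => YH F.H F.N), Complex.log) : Pt ι d) =
        ((c : ℂ), 1, (fun i w => YH F.H F.N w * (t.1 i)⁻¹),
          fun w => Complex.log w + 2 * Real.pi * Complex.I * ((-t.2 : ℤ) : ℂ)) := rfl
    rw [h5, h7] at h3
    exact h3

end Pool.Agent.MT100G.H63
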